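import Mathlib
import Pool.Agent.V11110.WittHopf

/-!
Two non-isomorphic affine Hopf algebras with isomorphic Arens-Michael envelopes.
-/

open TensorProduct UniformSpace Topology Pool.Agent.V11110 Pool.Agent.V11110.UEA
  Pool.Agent.V11110.Witt

namespace Pool.Agent.Results.MP_e2f694_an.EnvelopesOfC

section envelope

variable (A : Type*) [Ring A] [Algebra ℂ A]

/-- The submultiplicative seminorms on the algebra `A`. -/
abbrev SubmulSeminorm := {p : Seminorm ℂ A // ∀ a b : A, p (a * b) ≤ p a * p b}

/-- A copy of the algebra `A`, to be given the topology of all submultiplicative seminorms. -/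
def AMTop (A : Type*) := A

instance : Ring (AMTop A) := inferInstanceAs (Ring A)
instance : Algebra ℂ (AMTop A) := inferInstanceAs (Algebra ℂ A)

variable {A}

/-- A map `A → B`, viewed as a map between the copies of `A` and `B`. -/
def mapTop {A B : Type*} (f : A → B) : AMTop A → AMTop B := f

/-- The seminormed ring defined by a submultiplicative seminorm. -/
abbrev sring (p : SubmulSeminorm A) : SeminormedRing (AMTop A) :=
  { (inferInstance : Ring (AMTop A)),
    (AddGroupSeminorm.toSeminormedAddCommGroup
      (E := AMTop A) p.1.toAddGroupSeminorm) with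
    norm_mul_le := p.2 }

/-- The uniform structure defined by a submultiplicative seminorm. -/
abbrev unif (p : SubmulSeminorm A) : UniformSpace (AMTop A) :=
  (sring p).toPseudoMetricSpace.toUniformSpace

/-- The uniform structure (and topology) defined by all submultiplicative seminorms. -/
instance : UniformSpace (AMTop A) := ⨅ p : SubmulSeminorm A, unif p

instance : IsUniformAddGroup (AMTop A) := by
  refine isUniformAddGroup_iInf fun p => ?_
  let _ := sring p
  infer_instance

instance : IsTopologicalRing (AMTop A) := by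
  have h1 : @ContinuousMul (AMTop A) (⨅ p : SubmulSeminorm A, (unif p).toTopologicalSpace) _ := by
    refine continuousMul_iInf fun p => ?_
    let _ := sring p
    infer_instance
  have h2 : ContinuousMul (AMTop A) :=
    (UniformSpace.toTopologicalSpace_iInf (u := fun p : SubmulSeminorm A => unif p)) ▸ h1
  exact { continuous_add := continuous_add, continuous_mul := h2.continuous_mul,
          continuous_neg := continuous_neg }

/-- A criterion for uniform continuity. -/
lemma uniformContinuous_of_bound {B : Type*} [Ring B] [Algebra ℂ B] (f : A →+ B)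
    (h : ∀ q : SubmulSeminorm B, ∃ (p : SubmulSeminorm A) (C : ℝ), ∀ x, q.1 (f x) ≤ C * p.1 x) :
    UniformContinuous (mapTop f) := by
  refine uniformContinuous_iInf_rng.2 fun q => ?_
  obtain ⟨p, C, hp⟩ := h q
  refine uniformContinuous_iInf_dom (i := p) ?_
  let _ := sring p
  let _ := sring q
  let f' : AMTop A →+ AMTop B :=
    { toFun := f, map_zero' := f.map_zero, map_add' := f.map_add }
  exact AddMonoidHomClass.uniformContinuous_of_bound f' C hp

/-- The composition of a submultiplicative seminorm with a homomorphism. -/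
noncomputable def SubmulSeminorm.comp {B : Type*} [Ring B] [Algebra ℂ B] (q : SubmulSeminorm B)
    (f : A →ₐ[ℂ] B) : SubmulSeminorm A :=
  ⟨q.1.comp f.toLinearMap, fun a b => by
    show q.1 (f (a * b)) ≤ q.1 (f a) * q.1 (f b)
    rw [map_mul]; exact q.2 _ _⟩

lemma uniformContinuous_algHom {B : Type*} [Ring B] [Algebra ℂ B] (f : A →ₐ[ℂ] B) :
    UniformContinuous (mapTop f) :=
  uniformContinuous_of_bound (f : A →+ B) fun q => ⟨q.comp f, 1, fun _ => (one_mul _).ge⟩

instance : UniformContinuousConstSMul ℂ (AMTop A) := ⟨fun c => by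
  refine uniformContinuous_of_bound (A := A) (B := A) (DistribSMul.toAddMonoidHom A c) fun q =>
    ⟨q, ‖c‖, fun x => ?_⟩
  show q.1 (c • x) ≤ _
  rw [map_smul_eq_mul]⟩

variable (A)

/-- The Arens-Michael envelope of `A`: the completion of `A` with respect to the family of all
submultiplicative seminorms. -/
def AM := Completion (AMTop A)

noncomputable instance : Ring (AM A) := inferInstanceAs (Ring (Completion (AMTop A)))
noncomputable instance : Algebra ℂ (AM A) := inferInstanceAs (Algebra ℂ (Completion (AMTop A)))
instance : UniformSpace (AM A) := inferInstanceAs (UniformSpace (Completion (AMTop A)))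
instance : CompleteSpace (AM A) := inferInstanceAs (CompleteSpace (Completion (AMTop A)))
instance : T0Space (AM A) := inferInstanceAs (T0Space (Completion (AMTop A)))

variable {A}

/-- The map `AM A → AM B` induced by a map `f : A → B` (the continuous extension of `f`, when
`f` is uniformly continuous). -/
noncomputable def AM.map {B : Type*} [Ring B] [Algebra ℂ B] (f : A → B) : AM A → AM B :=
  Completion.map (mapTop f)

end envelope

section hopf

variable (H H₁ H₂ : Type*) [Ring H] [HopfAlgebra ℂ H] [Ring H₁] [HopfAlgebra ℂ H₁] [Ring H₂]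
  [HopfAlgebra ℂ H₂]

/-- The envelope of `H ⊗ H`, which is the completed tensor square of `AM H`. -/
abbrev AM2 := AM (H ⊗[ℂ] H)

/-- The first tensor factor `x ↦ x ⊗ 1`. -/
noncomputable def inl : AM H → AM2 H := AM.map (fun a : H => a ⊗ₜ[ℂ] (1 : H))

/-- The second tensor factor `x ↦ 1 ⊗ x`. -/
noncomputable def inr : AM H → AM2 H := AM.map (fun a : H => (1 : H) ⊗ₜ[ℂ] a)

/-- The comultiplication of the envelope. -/
noncomputable def comulHat : AM H → AM2 H := AM.map (Coalgebra.comul (R := ℂ) (A := H))

/-- The counit of the envelope. -/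
noncomputable def counitHat : AM H → AM ℂ := AM.map (Coalgebra.counit (R := ℂ) (A := H))

/-- The antipode of the envelope. -/
noncomputable def antipodeHat : AM H → AM H := AM.map (HopfAlgebra.antipode ℂ (A := H))

variable {H₁ H₂}

/-- `T` is the tensor square of `φ`: the continuous algebra homomorphism between the completed
tensor squares which is `φ` on each tensor factor. -/
structure IsTensorSquare (φ : AM H₁ →ₐ[ℂ] AM H₂) (T : AM2 H₁ →ₐ[ℂ] AM2 H₂) : Prop where
  continuous : Continuous T
  left : ∀ x, T (inl H₁ x) = inl H₂ (φ x)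
  right : ∀ x, T (inr H₁ x) = inr H₂ (φ x)

/-- `φ` commutes with comultiplication, counit and antipode. -/
structure IsHopfMap (φ : AM H₁ →ₐ[ℂ] AM H₂) : Prop where
  comul : ∃ T : AM2 H₁ →ₐ[ℂ] AM2 H₂, IsTensorSquare φ T ∧
    ∀ x, T (comulHat H₁ x) = comulHat H₂ (φ x)
  counit : ∀ x, counitHat H₂ (φ x) = counitHat H₁ x
  antipode : ∀ x, antipodeHat H₂ (φ x) = φ (antipodeHat H₁ x)

variable (H₁ H₂)

/-- The envelopes of `H₁` and `H₂` are isomorphic as topological Hopf algebras: there is a
topological algebra isomorphism between them which commutes with comultiplication, counit and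
antipode. -/
def EnvelopesIsomorphic : Prop :=
  ∃ φ : AM H₁ ≃ₐ[ℂ] AM H₂, Continuous φ ∧ Continuous φ.symm ∧ IsHopfMap (φ : AM H₁ →ₐ[ℂ] AM H₂)

end hopf

section maps

variable {A B C : Type*} [Ring A] [Algebra ℂ A] [Ring B] [Algebra ℂ B] [Ring C] [Algebra ℂ C]

/-- The continuous extension of an algebra homomorphism, as an algebra homomorphism. -/
noncomputable def mapAlg' (f : A →ₐ[ℂ] B) :
    Completion (AMTop A) →ₐ[ℂ] Completion (AMTop B) :=
  let f' : AMTop A →+* AMTop B :=
    { toFun := f, map_zero' := map_zero f, map_add' := map_add f, map_one' := map_one f,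
      map_mul' := map_mul f }
  { Completion.mapRingHom f' (uniformContinuous_algHom f).continuous with
    commutes' := fun r => by
      show Completion.mapRingHom f' (uniformContinuous_algHom f).continuous
        (algebraMap ℂ (Completion (AMTop A)) r) = _
      rw [Completion.algebraMap_def, Completion.mapRingHom_coe, Completion.algebraMap_def]
      exact congrArg Completion.coe' (f.commutes r) }

/-- The continuous extension of an algebra homomorphism, as an algebra homomorphism. -/
noncomputable def mapAlg (f : A →ₐ[ℂ] B) : AM A →ₐ[ℂ] AM B := mapAlg' f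

lemma mapAlg_apply (f : A →ₐ[ℂ] B) (x : AM A) : mapAlg f x = AM.map f x := rfl

lemma continuous_mapAlg (f : A →ₐ[ℂ] B) : Continuous (mapAlg f) := Completion.continuous_map

lemma map_map {g : B → C} {f : A → B} (hg : UniformContinuous (mapTop g))
    (hf : UniformContinuous (mapTop f)) (x : AM A) :
    AM.map g (AM.map f x) = AM.map (fun a => g (f a)) x :=
  congrFun (Completion.map_comp hg hf) x

lemma seminorm_neg_add (p : Seminorm ℂ A) (a b : A) : p (-a + b) = p (a - b) := by
  rw [← map_neg_eq_map p (a - b), neg_sub, sub_eq_neg_add]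

/-- Elements killed by all submultiplicative seminorms vanish in the envelope. -/
lemma coe_eq {a b : AMTop A} (h : ∀ p : SubmulSeminorm A, p.1 (a - b : A) = 0) :
    (a : Completion (AMTop A)) = b := by
  have h1 : Inseparable a b := by
    have h2 : ∀ p : SubmulSeminorm A, @nhds (AMTop A) (unif p).toTopologicalSpace a =
        @nhds (AMTop A) (unif p).toTopologicalSpace b := by
      intro p
      refine (@Metric.inseparable_iff (AMTop A) (sring p).toPseudoMetricSpace a b).2 ?_
      refine ((sring p).dist_eq a b).trans ?_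
      exact (seminorm_neg_add p.1 a b).trans (h p)
    show @nhds (AMTop A) (⨅ p : SubmulSeminorm A, unif p).toTopologicalSpace a =
      @nhds (AMTop A) (⨅ p : SubmulSeminorm A, unif p).toTopologicalSpace b
    rw [UniformSpace.toTopologicalSpace_iInf, nhds_iInf, nhds_iInf]
    exact iInf_congr h2
  exact (h1.map (Completion.continuous_coe _)).eq

end maps

section example_

/-- The counit of the Hopf algebra `UW`. -/
noncomputable abbrev cu : UW →ₐ[ℂ] ℂ := ε

lemma seminorm_sub (p : SubmulSeminorm UW) (a : UW) :
    p.1 (algebraMap ℂ UW (cu a) - a) = 0 := by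
  induction a using UEA.induction with
  | halg r => rw [AlgHom.commutes]; simp
  | hι x =>
    rw [show cu (ι x) = 0 from ε_ι x, map_zero, zero_sub, map_neg_eq_map]
    exact seminorm_ι p.1 p.2 x
  | hadd a b ha hb =>
    rw [map_add, map_add, add_sub_add_comm]
    refine le_antisymm ?_ (apply_nonneg p.1 _)
    calc _ ≤ p.1 (algebraMap ℂ UW (cu a) - a) + p.1 (algebraMap ℂ UW (cu b) - b) :=
          map_add_le_add p.1 _ _
      _ = 0 := by rw [ha, hb, add_zero]
  | hmul a b ha hb =>
    have h : algebraMap ℂ UW (cu (a * b)) - a * b =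
        (algebraMap ℂ UW (cu a) - a) * algebraMap ℂ UW (cu b) +
          a * (algebraMap ℂ UW (cu b) - b) := by
      rw [map_mul, map_mul]
      noncomm_ring
    rw [h]
    refine le_antisymm ?_ (apply_nonneg p.1 _)
    calc _ ≤ p.1 ((algebraMap ℂ UW (cu a) - a) * algebraMap ℂ UW (cu b)) +
          p.1 (a * (algebraMap ℂ UW (cu b) - b)) := map_add_le_add p.1 _ _
      _ ≤ p.1 (algebraMap ℂ UW (cu a) - a) * p.1 (algebraMap ℂ UW (cu b)) +
          p.1 a * p.1 (algebraMap ℂ UW (cu b) - b) := add_le_add (p.2 _ _) (p.2 _ _)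
      _ = 0 := by rw [ha, hb, zero_mul, mul_zero, add_zero]

/-- The unit map. -/
noncomputable abbrev un : ℂ →ₐ[ℂ] UW := Algebra.ofId ℂ UW

lemma un_cu_aux (x : Completion (AMTop UW)) :
    Completion.map (mapTop (fun a => un (cu a))) x = x := by
  induction x using Completion.induction_on with
  | hp => exact isClosed_eq Completion.continuous_map continuous_id
  | ih a =>
    have h := (uniformContinuous_algHom (un.comp cu))
    have h1 : Completion.map (mapTop (fun a => un (cu a))) (a : Completion (AMTop UW)) =
        ((mapTop (fun a => un (cu a)) a : AMTop UW) : Completion (AMTop UW)) :=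
      Completion.map_coe h a
    rw [h1]
    exact coe_eq fun p => seminorm_sub p a

lemma un_cu (x : AM UW) : mapAlg un (mapAlg cu x) = x := by
  rw [mapAlg_apply, mapAlg_apply, map_map (uniformContinuous_algHom un)
    (uniformContinuous_algHom cu)]
  exact un_cu_aux x

lemma cu_un (x : AM ℂ) : mapAlg cu (mapAlg un x) = x := by
  rw [mapAlg_apply, mapAlg_apply, map_map (uniformContinuous_algHom cu)
    (uniformContinuous_algHom un)]
  have h1 : (fun a : ℂ => cu (un a)) = id := by
    funext a
    show cu (algebraMap ℂ UW a) = a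
    rw [AlgHom.commutes]
    rfl
  rw [h1]
  exact congrFun Completion.map_id x

lemma uniformContinuous_S : UniformContinuous (mapTop (UEA.S : UW → UW)) := by
  refine uniformContinuous_of_bound (UEA.S : UW →ₗ[ℂ] UW).toAddMonoidHom fun q =>
    ⟨⟨q.1.comp (UEA.S : UW →ₗ[ℂ] UW), fun a b => ?_⟩, 1, fun _ => (one_mul _).ge⟩
  show q.1 (UEA.S (a * b)) ≤ q.1 (UEA.S a) * q.1 (UEA.S b)
  rw [S_mul, mul_comm (q.1 (UEA.S a))]
  exact q.2 _ _

lemma unif_left (A : Type*) [Ring A] [Algebra ℂ A] :
    UniformContinuous (mapTop (fun a : A => a ⊗ₜ[ℂ] (1 : A))) :=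
  uniformContinuous_algHom (Algebra.TensorProduct.includeLeft : A →ₐ[ℂ] A ⊗[ℂ] A)

lemma unif_right (A : Type*) [Ring A] [Algebra ℂ A] :
    UniformContinuous (mapTop (fun a : A => (1 : A) ⊗ₜ[ℂ] a)) :=
  uniformContinuous_algHom (Algebra.TensorProduct.includeRight : A →ₐ[ℂ] A ⊗[ℂ] A)

lemma unif_comul (A : Type*) [Ring A] [Bialgebra ℂ A] :
    UniformContinuous (mapTop (Coalgebra.comul (R := ℂ) (A := A))) :=
  uniformContinuous_algHom (Bialgebra.comulAlgHom ℂ A)

lemma unif_counit (A : Type*) [Ring A] [Bialgebra ℂ A] :
    UniformContinuous (mapTop (Coalgebra.counit (R := ℂ) (A := A))) :=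
  uniformContinuous_algHom (Bialgebra.counitAlgHom ℂ A)

/-- The tensor square of `mapAlg f`. -/
lemma isTensorSquare_cu :
    IsTensorSquare (mapAlg cu) (mapAlg (Algebra.TensorProduct.map cu cu)) where
  continuous := continuous_mapAlg _
  left x := by
    refine (map_map (uniformContinuous_algHom (Algebra.TensorProduct.map cu cu))
      (unif_left UW) x).trans (Eq.trans ?_
        (map_map (unif_left ℂ) (uniformContinuous_algHom cu) x).symm)
    simp
  right x := by
    refine (map_map (uniformContinuous_algHom (Algebra.TensorProduct.map cu cu))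
      (unif_right UW) x).trans (Eq.trans ?_
        (map_map (unif_right ℂ) (uniformContinuous_algHom cu) x).symm)
    simp

lemma isHopfMap_cu : IsHopfMap (mapAlg cu) where
  comul := by
    refine ⟨_, isTensorSquare_cu, fun x => ?_⟩
    refine (map_map (uniformContinuous_algHom (Algebra.TensorProduct.map cu cu))
      (unif_comul UW) x).trans (Eq.trans ?_
        (map_map (unif_comul ℂ) (uniformContinuous_algHom cu) x).symm)
    have h : (Algebra.TensorProduct.map cu cu).comp (Bialgebra.comulAlgHom ℂ UW) =
        (Bialgebra.comulAlgHom ℂ ℂ).comp cu := by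
      apply hom_ext'
      intro y
      show Algebra.TensorProduct.map cu cu (Δ (ι y)) = Bialgebra.comulAlgHom ℂ ℂ (cu (ι y))
      rw [Δ_ι, show cu (ι y) = 0 from ε_ι y, map_zero, map_add, Algebra.TensorProduct.map_tmul,
        Algebra.TensorProduct.map_tmul, show cu (ι y) = 0 from ε_ι y]
      simp
    congr 1
    funext a
    exact DFunLike.congr_fun h a
  counit x := map_map (unif_counit ℂ) (uniformContinuous_algHom cu) x
  antipode x := by
    have h1 : UniformContinuous (mapTop (HopfAlgebra.antipode ℂ (A := ℂ))) :=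
      uniformContinuous_algHom (AlgHom.id ℂ ℂ)
    refine (map_map h1 (uniformContinuous_algHom cu) x).trans (Eq.trans ?_
      (map_map (uniformContinuous_algHom cu) uniformContinuous_S x).symm)
    congr 1
    funext a
    exact (HopfAlgebra.counit_antipode (R := ℂ) (A := UW) a).symm

/-- The envelopes of `UW` and of `ℂ` are isomorphic. -/
lemma iso : EnvelopesIsomorphic UW ℂ :=
  ⟨AlgEquiv.ofAlgHom (mapAlg cu) (mapAlg un) (AlgHom.ext cu_un) (AlgHom.ext un_cu),
    continuous_mapAlg cu, continuous_mapAlg un, isHopfMap_cu⟩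

/-- `H₁` and `H₂` are affine Hopf algebras, not isomorphic as Hopf algebras nor as algebras. -/
structure AffineNonIso (H₁ H₂ : Type) [Ring H₁] [HopfAlgebra ℂ H₁] [Ring H₂]
    [HopfAlgebra ℂ H₂] : Prop where
  affine₁ : Algebra.FiniteType ℂ H₁
  affine₂ : Algebra.FiniteType ℂ H₂
  not_iso : IsEmpty (H₁ ≃ₐc[ℂ] H₂)
  not_algebra_iso : IsEmpty (H₁ ≃ₐ[ℂ] H₂)

/-- **Negative answer.**  There are two affine complex Hopf algebras that are not isomorphic, not
even as algebras, whose Arens-Michael envelopes are isomorphic as topological Hopf algebras.  The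
second one is `ℂ`. -/
theorem result :
    ∃ (H₁ H₂ : Type) (_ : Ring H₁) (_ : HopfAlgebra ℂ H₁) (_ : Ring H₂) (_ : HopfAlgebra ℂ H₂),
      AffineNonIso H₁ H₂ ∧ EnvelopesIsomorphic H₁ H₂ := by
  have hno : IsEmpty (UW ≃ₐ[ℂ] ℂ) := by
    constructor
    intro e
    have h1 : ι (R := ℂ) (D 0) = algebraMap ℂ UW (e (ι (R := ℂ) (D 0))) := by
      apply e.injective
      rw [AlgEquiv.commutes]
      rfl
    have h2 := congrArg cu h1
    rw [show cu (ι (D 0)) = 0 from ε_ι _, AlgHom.commutes] at h2
    have h3 : e (ι (R := ℂ) (D 0)) = 0 := h2.symm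
    exact ι_ne_zero (e.injective (h3.trans (map_zero e).symm))
  refine ⟨UW, ℂ, inferInstance, inferInstance, inferInstance, inferInstance,
    ⟨finiteType, inferInstance, ⟨fun e => ?_⟩, hno⟩, iso⟩
  exact hno.false (e : UW ≃ₐ[ℂ] ℂ)

end example_

end Pool.Agent.Results.MP_e2f694_an.EnvelopesOfC
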